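import Pool.Agent.R907.KunMain
import Pool.Agent.TH122.KmC

/-!
# Projectors onto sums of graded pieces, traces and ranks
-/

open CategoryTheory AlgebraicGeometry Finset Polynomial

universe u₁ v₁ u v

namespace Pool.Agent.N164.KC

open Pool.Agent.H914 Pool.Agent.H447 Pool.Agent.W537 Pool.Agent.Y106.One Pool.Agent.R907 VarClass
  Obj WeilCohomology

section Alg

variable {K : Type*} [Field K] {V : Type*} [AddCommGroup V] [Module K V]

/-- `P` is the projector onto the sum of the `gr j`, `j ∈ S`: it is the identity on `gr j` for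
`j ∈ S` and zero on `gr j` for `j ∉ S`. -/
def IsBlockProjector (gr : ℕ → Submodule K V) (S : Set ℕ) (P : Module.End K V) : Prop :=
  (∀ j ∈ S, ∀ a ∈ gr j, P a = a) ∧ ∀ j ∉ S, ∀ a ∈ gr j, P a = 0

variable {gr : ℕ → Submodule K V}

open Classical in
/-- The projector onto the sum of the `gr j`, `j ∈ S`. -/
noncomputable def bproj (h : DirectSum.IsInternal gr) (S : Set ℕ) : Module.End K V :=
  scal h fun j => if j ∈ S then 1 else 0

lemma bproj_same (h : DirectSum.IsInternal gr) {S : Set ℕ} {j : ℕ} (hj : j ∈ S) {a : V}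
    (ha : a ∈ gr j) : bproj h S a = a := by
  rw [bproj, scal_apply h _ ha, if_pos hj, one_smul]

lemma bproj_ne (h : DirectSum.IsInternal gr) {S : Set ℕ} {j : ℕ} (hj : j ∉ S) {a : V}
    (ha : a ∈ gr j) : bproj h S a = 0 := by
  rw [bproj, scal_apply h _ ha, if_neg hj, zero_smul]

lemma isBlock_iff (h : DirectSum.IsInternal gr) {S : Set ℕ} {P : Module.End K V} :
    IsBlockProjector gr S P ↔ P = bproj h S := by
  constructor
  · rintro ⟨h1, h2⟩
    apply gr_ext h
    intro j a ha
    by_cases hj : j ∈ S
    · rw [h1 j hj a ha, bproj_same h hj ha]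
    · rw [h2 j hj a ha, bproj_ne h hj ha]
  · rintro rfl
    exact ⟨fun j hj a ha => bproj_same h hj ha, fun j hj a ha => bproj_ne h hj ha⟩

lemma bproj_mul (h : DirectSum.IsInternal gr) (S T : Set ℕ) :
    bproj h S * bproj h T = bproj h (S ∩ T) := by
  apply gr_ext h
  intro j a ha
  rw [Module.End.mul_apply]
  by_cases hT : j ∈ T
  · rw [bproj_same h hT ha]
    by_cases hS : j ∈ S
    · rw [bproj_same h hS ha, bproj_same h (show j ∈ S ∩ T from ⟨hS, hT⟩) ha]
    · rw [bproj_ne h hS ha, bproj_ne h (show j ∉ S ∩ T from fun h' => hS h'.1) ha]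
  · rw [bproj_ne h hT ha, map_zero, bproj_ne h (show j ∉ S ∩ T from fun h' => hT h'.2) ha]

lemma bproj_idem (h : DirectSum.IsInternal gr) (S : Set ℕ) :
    bproj h S * bproj h S = bproj h S := by
  rw [bproj_mul, Set.inter_self]

lemma bproj_empty (h : DirectSum.IsInternal gr) : bproj h ∅ = 0 := by
  apply gr_ext h
  intro j a ha
  rw [bproj_ne h (Set.notMem_empty j) ha, LinearMap.zero_apply]

lemma bproj_disj (h : DirectSum.IsInternal gr) {S T : Set ℕ} (hST : S ∩ T = ∅) :
    bproj h S * bproj h T = 0 := by
  rw [bproj_mul, hST, bproj_empty]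

lemma bproj_add_compl (h : DirectSum.IsInternal gr) (S : Set ℕ) :
    bproj h S + bproj h Sᶜ = 1 := by
  apply gr_ext h
  intro j a ha
  rw [LinearMap.add_apply, Module.End.one_apply]
  by_cases hS : j ∈ S
  · rw [bproj_same h hS ha, bproj_ne h (show j ∉ Sᶜ from fun h' => h' hS) ha, add_zero]
  · rw [bproj_ne h hS ha, bproj_same h (show j ∈ Sᶜ from hS) ha, zero_add]

lemma bproj_singleton (h : DirectSum.IsInternal gr) (i : ℕ) :
    bproj h {i} = proj h i := by
  apply gr_ext h
  intro j a ha
  by_cases hj : j = i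
  · subst hj
    rw [bproj_same h (Set.mem_singleton _) ha, proj_same h ha]
  · rw [bproj_ne h (by simpa using hj) ha, proj_ne h ha hj]

open Classical in
lemma bproj_eq_sum (h : DirectSum.IsInternal gr) {m : ℕ} (hm : ∀ j, m ≤ j → gr j = ⊥)
    (S : Set ℕ) : bproj h S = ∑ j ∈ (range m).filter (· ∈ S), proj h j := by
  apply gr_ext h
  intro i a ha
  rw [LinearMap.sum_apply]
  by_cases hi : i < m
  · by_cases hS : i ∈ S
    · rw [bproj_same h hS ha, Finset.sum_eq_single i]
      · rw [proj_same _ ha]
      · intro j _ hj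
        rw [proj_ne _ ha (Ne.symm hj)]
      · intro h
        exact absurd (Finset.mem_filter.2 ⟨Finset.mem_range.2 hi, hS⟩) h
    · rw [bproj_ne h hS ha]
      symm
      apply Finset.sum_eq_zero
      intro j hj
      rw [proj_ne _ ha]
      rintro rfl
      exact hS (Finset.mem_filter.1 hj).2
  · rw [hm i (by omega), Submodule.mem_bot] at ha
    subst ha
    simp

/-- An operator on the image of `P` all powers of which have trace zero is nilpotent. -/
lemma nil_of_traces [CharZero K] [Module.Finite K V] {P e : Module.End K V} (hP : P * P = P)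
    (hc : Commute P e) (h : ∀ r : ℕ, LinearMap.trace K V (P * e ^ (r + 1)) = 0) {N : ℕ}
    (hN : Module.finrank K V ≤ N) : P * e ^ N = 0 := by
  have hpow : ∀ r : ℕ, (P * e) ^ (r + 1) = P * e ^ (r + 1) := by
    intro r
    rw [hc.mul_pow]
    congr 1
    induction r with
    | zero => simp
    | succ r ih => rw [pow_succ, ih, hP]
  have hnil : IsNilpotent (P * e) := isNilpotent_of_trace_pow _ fun r => by rw [hpow, h]
  obtain ⟨k, hk⟩ := hnil
  have h1 : (P * e) ^ N = 0 := by
    have h2 := Module.End.ker_pow_le_ker_pow_finrank (P * e) k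
    rw [hk, LinearMap.ker_zero, top_le_iff, LinearMap.ker_eq_top] at h2
    rw [← Nat.sub_add_cancel hN, pow_add, h2, mul_zero]
  rcases N with _ | r
  · have h3 : Module.finrank K V = 0 := by omega
    have : Subsingleton V := Module.finrank_zero_iff.1 h3
    exact Subsingleton.elim _ _
  · rw [← hpow, h1]

/-- The projector from an approximation. -/
lemma approx_eq {P P' a : Module.End K V} (h1 : P + P' = 1) {N : ℕ} (hP : P * (1 - a) ^ N = 0)
    (hP' : P' * a ^ N = 0) : 1 - (1 - a ^ N) ^ N = P := by
  have h5 : (1 - a ^ N) ^ N = (1 - a) ^ N * (∑ k ∈ range N, a ^ k) ^ N := by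
    have h6 : 1 - a ^ N = (1 - a) * (∑ k ∈ range N, a ^ k) := (mul_neg_geom_sum a N).symm
    have h7 : Commute (1 - a) (∑ k ∈ range N, a ^ k) := by
      apply Commute.sum_right
      intro k _
      exact (Commute.one_left _).sub_left (Commute.self_pow _ _)
    rw [h6, h7.mul_pow]
  have h8 : ∀ m : ℕ, P' * (1 - a ^ N) ^ m = P' := by
    intro m
    induction m with
    | zero => rw [pow_zero, mul_one]
    | succ m ih => rw [pow_succ, ← mul_assoc, ih, mul_sub, mul_one, hP', sub_zero]
  calc 1 - (1 - a ^ N) ^ N = (P + P') * (1 - (1 - a ^ N) ^ N) := by rw [h1, one_mul]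
    _ = P := by
      rw [add_mul, mul_sub, mul_sub, mul_one, mul_one, h8, h5, ← mul_assoc, hP, zero_mul, sub_zero,
        sub_self, add_zero]

end Alg

variable {k : Type u} [Field k] {𝒱 : VarClass k} {ops : CycleOps 𝒱} {X : 𝒱.Obj}
  {W W' : WeilCohomology.{u, v} ops}

lemma bproj_comm {a : Module.End W.K (W.H X)} (ha : a ∈ Submodule.span W.K (corrOps W X))
    (S : Set ℕ) : Commute (bproj (W.isInternal X) S) a := by
  classical
  rw [bproj_eq_sum (W.isInternal X) (m := 2 * X.dim + 1) (fun j hj => W.gr_eq_bot X j (by omega))]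
  exact Commute.sum_left _ _ _ fun j _ => corrOps_comm ha

/-- The block traces of a combination of correspondences, against all correspondences. -/
def HasBlockTraces (S : Set ℕ) (a : Module.End W.K (W.H X)) : Prop :=
  ∀ b ∈ corrOps W X,
    LinearMap.trace W.K _ (a * b * bproj (W.isInternal X) S) =
      LinearMap.trace W.K _ (b * bproj (W.isInternal X) S) ∧
    LinearMap.trace W.K _ (a * b * bproj (W.isInternal X) Sᶜ) = 0

lemma HasBlockTraces.span {S : Set ℕ} {a : Module.End W.K (W.H X)} (h : HasBlockTraces S a)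
    {b : Module.End W.K (W.H X)} (hb : b ∈ Submodule.span W.K (corrOps W X)) :
    LinearMap.trace W.K _ (a * b * bproj (W.isInternal X) S) =
      LinearMap.trace W.K _ (b * bproj (W.isInternal X) S) ∧
    LinearMap.trace W.K _ (a * b * bproj (W.isInternal X) Sᶜ) = 0 := by
  induction hb using Submodule.span_induction with
  | mem y hy => exact h y hy
  | zero => simp
  | add x y _ _ hx hy =>
    refine ⟨?_, ?_⟩
    · rw [mul_add, add_mul, map_add, hx.1, hy.1, add_mul, map_add]
    · rw [mul_add, add_mul, map_add, hx.2, hy.2, add_zero]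
  | smul c x _ hx =>
    refine ⟨?_, ?_⟩
    · rw [mul_smul_comm, smul_mul_assoc, map_smul, hx.1, smul_mul_assoc, map_smul]
    · rw [mul_smul_comm, smul_mul_assoc, map_smul, hx.2, smul_zero]

/-- **The projector from traces**, with coefficients in the coefficient field. -/
theorem bproj_mem_of_traces {S : Set ℕ} {a : Module.End W.K (W.H X)}
    (ha : a ∈ Submodule.span W.K (corrOps W X)) (h : HasBlockTraces S a) :
    bproj (W.isInternal X) S ∈ Submodule.span W.K (corrOps W X) := by
  set A := Submodule.span W.K (corrOps W X) with hA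
  have h1 : (1 : Module.End W.K (W.H X)) ∈ A := Submodule.subset_span one_mem_corrOps
  have he : 1 - a ∈ A := Submodule.sub_mem _ h1 ha
  set N := Module.finrank W.K (W.H X) with hN
  have hS : bproj (W.isInternal X) S * (1 - a) ^ N = 0 := by
    refine nil_of_traces (bproj_idem _ _) (bproj_comm he S) (fun r => ?_) le_rfl
    rw [LinearMap.trace_mul_comm, pow_succ', sub_mul, sub_mul, map_sub, one_mul,
      (h.span (span_corrOps_pow he r)).1, sub_self]
  have hS' : bproj (W.isInternal X) Sᶜ * a ^ N = 0 := by
    refine nil_of_traces (bproj_idem _ _) (bproj_comm ha _) (fun r => ?_) le_rfl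
    rw [LinearMap.trace_mul_comm, pow_succ', (h.span (span_corrOps_pow ha r)).2]
  rw [← approx_eq (bproj_add_compl (W.isInternal X) S) hS hS']
  exact Submodule.sub_mem _ h1
    (span_corrOps_pow (Submodule.sub_mem _ h1 (span_corrOps_pow ha N)) N)

/-- The traces of the projector. -/
lemma hasBlockTraces_bproj (S : Set ℕ) :
    HasBlockTraces S (bproj (W.isInternal X) S : Module.End W.K (W.H X)) := by
  intro b hb
  have hc := bproj_comm (Submodule.subset_span hb) S
  rw [hc.eq, mul_assoc, mul_assoc, bproj_idem, bproj_disj (W.isInternal X) (by simp), mul_zero,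
    map_zero]
  exact ⟨rfl, rfl⟩

/-! ### Ranks -/

/-- The classes of degrees `0, …, 2 n` with a colouring: the alternating sum of the projectors. -/
lemma par_eq_blocks (W : WeilCohomology.{u, v} ops) (X : 𝒱.Obj) (c : ℕ → ℕ) (m : ℕ)
    (hc : ∀ j ≤ 2 * X.dim, c j < m)
    (hpar : ∀ i ≤ 2 * X.dim, ∀ j ≤ 2 * X.dim, c i = c j → (Even i ↔ Even j)) :
    ∃ ε : ℕ → W.K, (∀ s, ε s ≠ 0) ∧
      par (W.isInternal X) = ∑ s ∈ range m, ε s • bproj (W.isInternal X) {j | c j = s} := by
  classical
  refine ⟨fun s => if ∃ j ≤ 2 * X.dim, c j = s ∧ ¬ Even j then -1 else 1, fun s => ?_, ?_⟩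
  · by_cases h : ∃ j ≤ 2 * X.dim, c j = s ∧ ¬ Even j
    · simp only [if_pos h]; exact neg_ne_zero.2 one_ne_zero
    · simp only [if_neg h]; exact one_ne_zero
  apply gr_ext (W.isInternal X)
  intro i a ha
  rw [par, scal_apply _ _ ha, LinearMap.sum_apply]
  by_cases hi : i ≤ 2 * X.dim
  · rw [Finset.sum_eq_single (c i)]
    · rw [LinearMap.smul_apply, bproj_same _ (show i ∈ {j | c j = c i} from rfl) ha]
      congr 1
      beta_reduce
      by_cases he : Even i
      · have h0 : ¬ ∃ j ≤ 2 * X.dim, c j = c i ∧ ¬ Even j := by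
          rintro ⟨j, hj, hcj, hne⟩
          exact hne ((hpar i hi j hj hcj.symm).1 he)
        rw [he.neg_one_pow, if_neg h0]
      · have h0 : ∃ j ≤ 2 * X.dim, c j = c i ∧ ¬ Even j := ⟨i, hi, rfl, he⟩
        rw [(Nat.not_even_iff_odd.1 he).neg_one_pow, if_pos h0]
    · intro s _ hs
      rw [LinearMap.smul_apply, bproj_ne _ (show i ∉ {j | c j = s} from fun h => hs h.symm) ha,
        smul_zero]
    · intro h
      exact absurd (Finset.mem_range.2 (hc i hi)) h
  · rw [W.gr_eq_bot X i (by omega), Submodule.mem_bot] at ha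
    subst ha
    simp

/-- **The ranks of the trace forms of the classes of a partition of the degrees.** -/
theorem rank_main (c : ℕ → ℕ) (m : ℕ) (hc : ∀ j ≤ 2 * X.dim, c j < m)
    (hpar : ∀ i ≤ 2 * X.dim, ∀ j ≤ 2 * X.dim, c i = c j → (Even i ↔ Even j)) :
    numCorrRank ops X ≤
      ∑ s ∈ range m, formRank (bproj (W.isInternal X) {j | c j = s}) (corrOps W X) ∧
    ((∀ s < m, bproj (W.isInternal X) {j | c j = s} ∈ Submodule.span W.K (corrOps W X)) ↔
      numCorrRank ops X =
        ∑ s ∈ range m, formRank (bproj (W.isInternal X) {j | c j = s}) (corrOps W X)) := by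
  classical
  obtain ⟨ε, hε, hpε⟩ := par_eq_blocks W X c m hc hpar
  set Q : ℕ → Module.End W.K (W.H X) := fun s => bproj (W.isInternal X) {j | c j = s} with hQ
  have hPP : ∀ i j, Q i * Q j = if i = j then Q i else 0 := by
    intro i j
    by_cases hij : i = j
    · subst hij
      rw [if_pos rfl]
      exact bproj_idem _ _
    · rw [if_neg hij]
      apply bproj_disj
      rw [← Set.disjoint_iff_inter_eq_empty, Set.disjoint_left]
      intro l hl hl'
      exact hij ((show c l = i from hl).symm.trans hl')
  rw [← formRank_par W X]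
  refine ⟨formRank_le_sum Q _ _ _ hpε, fun h => ?_, fun h s hs => ?_⟩
  · exact formRank_eq_sum Q _ _ _ hpε hε (fun a ha b hb => span_corrOps_mul ha hb) h
      (fun j a ha => bproj_comm ha _) hPP
  · obtain ⟨a, ha, ha2⟩ := exists_joint Q _ _ _ hpε h
      (fun j => if j = s then 1 else 0) (fun j => by
        by_cases hj : j = s
        · rw [if_pos hj]; exact Submodule.subset_span one_mem_corrOps
        · rw [if_neg hj]; exact Submodule.zero_mem _)
    refine bproj_mem_of_traces ha fun b hb => ⟨?_, ?_⟩
    · have h1 := ha2 s hs b hb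
      rwa [if_pos rfl, one_mul] at h1
    · have h2 : bproj (W.isInternal X) {j | c j = s}ᶜ = ∑ t ∈ (range m).erase s, Q t := by
        apply gr_ext (W.isInternal X)
        intro i x hx
        rw [LinearMap.sum_apply]
        by_cases hi : i ≤ 2 * X.dim
        · by_cases his : c i = s
          · rw [bproj_ne _ (show i ∉ ({j | c j = s}ᶜ : Set ℕ) from fun h' => h' his) hx]
            symm
            apply Finset.sum_eq_zero
            intro t ht
            exact bproj_ne _ (show i ∉ {j | c j = t} from
              fun h' : c i = t => (Finset.mem_erase.1 ht).1 (h'.symm.trans his)) hx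
          · rw [bproj_same _ (show i ∈ ({j | c j = s}ᶜ : Set ℕ) from his) hx,
              Finset.sum_eq_single (c i)]
            · exact (bproj_same _ (show i ∈ {j | c j = c i} from rfl) hx).symm
            · intro t _ ht
              exact bproj_ne _ (show i ∉ {j | c j = t} from fun h' : c i = t => ht h'.symm) hx
            · intro h'
              exact absurd (Finset.mem_erase.2 ⟨his, Finset.mem_range.2 (hc i hi)⟩) h'
        · rw [W.gr_eq_bot X i (by omega), Submodule.mem_bot] at hx
          subst hx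
          simp
      rw [h2, Finset.mul_sum, map_sum]
      apply Finset.sum_eq_zero
      intro t ht
      have h3 := ha2 t (Finset.mem_range.1 (Finset.mem_erase.1 ht).2) b hb
      rw [if_neg (Finset.mem_erase.1 ht).1, zero_mul, zero_mul, map_zero] at h3
      exact h3

end Pool.Agent.N164.KC
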