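import Pool.Agent.N164.KC.Block

/-!
# One rational cycle for all theories with the same traces
-/

open CategoryTheory AlgebraicGeometry Finset Polynomial

universe u₁ v₁ u v

namespace Pool.Agent.N164.KC

open Pool.Agent.H914 Pool.Agent.H447 Pool.Agent.W537 Pool.Agent.Y106.One Pool.Agent.R907 VarClass
  Obj WeilCohomology

variable {k : Type u} [Field k] {𝒱 : VarClass k} {ops : CycleOps 𝒱} {X : 𝒱.Obj}
  {W W' : WeilCohomology.{u, v} ops}

/-- The traces in the theories of the set are the same. -/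
lemma sameTraces_mem {𝒲 : Set (WeilCohomology.{u, v} ops)} {j : ℕ}
    (h : Pool.Agent.TH122.Km.SameTraces 𝒲 X j) (hW : W ∈ 𝒲) (hW' : W' ∈ 𝒲) :
    Pool.Agent.Y106.One.SameTraces X j W W' := by
  rintro T (⟨p, hp, z, hz, hT⟩ | ⟨hd, _⟩)
  · obtain rfl : p = X.dim := by omega
    obtain ⟨q, hq⟩ := h z hz
    refine ⟨q, ?_, ?_⟩
    · rw [LinearMap.trace_mul_comm, hT W]
      exact hq W hW _ ((isProjector_iff (W.isInternal X) j).2 rfl)
    · rw [LinearMap.trace_mul_comm, hT W']
      exact hq W' hW' _ ((isProjector_iff (W'.isInternal X) j).2 rfl)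
  · omega

lemma finrank_eq_of_same (hT : ∀ j, Pool.Agent.Y106.One.SameTraces X j W W') :
    Module.finrank W'.K (W'.H X) = Module.finrank W.K (W.H X) := by
  rw [finrank_eq_sum (W.isInternal X) (N := 2 * X.dim + 1) (fun j hj => W.gr_eq_bot X j (by omega)),
    finrank_eq_sum (W'.isInternal X) (N := 2 * X.dim + 1)
      (fun j hj => W'.gr_eq_bot X j (by omega))]
  exact Finset.sum_congr rfl fun j _ => betti_eq_of_same (hT j)

lemma bproj_sum_ex (X : 𝒱.Obj) (S : Set ℕ) : ∃ s : Finset ℕ, (∀ j ∈ s, j ∈ S) ∧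
    ∀ W : WeilCohomology.{u, v} ops,
      bproj (W.isInternal X) S = ∑ j ∈ s, proj (W.isInternal X) j := by
  classical
  exact ⟨_, fun j hj => (Finset.mem_filter.1 hj).2, fun W =>
    bproj_eq_sum (W.isInternal X) (m := 2 * X.dim + 1) (fun j hj => W.gr_eq_bot X j (by omega)) S⟩

lemma block_trace_zero (hT : ∀ j, Pool.Agent.Y106.One.SameTraces X j W W') (S : Set ℕ)
    {T : Fam.{u, v} ops X} (h : Realized ops X 0 T)
    (h0 : LinearMap.trace W.K (W.H X) (bproj (W.isInternal X) S * T W) = 0) :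
    LinearMap.trace W'.K (W'.H X) (bproj (W'.isInternal X) S * T W') = 0 := by
  obtain ⟨s, -, hs⟩ := bproj_sum_ex.{u, v} (ops := ops) X S
  choose t ht ht' using fun j => hT j T h
  rw [hs W, Finset.sum_mul, map_sum, Finset.sum_congr rfl (fun j _ => ht j), ← Rat.cast_sum,
    Rat.cast_eq_zero] at h0
  rw [hs W', Finset.sum_mul, map_sum, Finset.sum_congr rfl (fun j _ => ht' j), ← Rat.cast_sum, h0,
    Rat.cast_zero]

lemma real_span {T : Fam.{u, v} ops X} (hT : Realized ops X 0 T) (W : WeilCohomology.{u, v} ops) :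
    T W ∈ Submodule.span W.K (corrOps W X) :=
  Submodule.subset_span (mem_corrOps_iff.2 ⟨T, hT, rfl⟩)

/-- From rational traces to the projector, in all theories with the same traces. -/
theorem exists_block {S : Set ℕ} {y : Fam.{u, v} ops X} (hy : Realized ops X 0 y)
    (h : ∀ b, Realized ops X 0 b →
      LinearMap.trace W.K (W.H X) (bproj (W.isInternal X) S * (y W * b W)) =
        LinearMap.trace W.K (W.H X) (bproj (W.isInternal X) S * b W) ∧
      LinearMap.trace W.K (W.H X) (bproj (W.isInternal X) Sᶜ * (y W * b W)) = 0) :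
    ∃ z : Fam.{u, v} ops X, Realized ops X 0 z ∧
      ∀ W' : WeilCohomology.{u, v} ops, (∀ j, Pool.Agent.Y106.One.SameTraces X j W W') →
        z W' = bproj (W'.isInternal X) S := by
  set N := Module.finrank W.K (W.H X) with hN
  have he : Realized ops X 0 (fun W : WeilCohomology.{u, v} ops => 1 - y W) :=
    Realized.one.sub hy
  refine ⟨fun W => 1 - (1 - y W ^ N) ^ N, Realized.one.sub
    ((Realized.one.sub (hy.pow0 N)).pow0 N), fun W' hT => ?_⟩
  have hN' : Module.finrank W'.K (W'.H X) ≤ N := (finrank_eq_of_same hT).le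
  have t1 : ∀ r : ℕ, LinearMap.trace W'.K (W'.H X)
      (bproj (W'.isInternal X) S * (1 - y W') ^ (r + 1)) = 0 := by
    intro r
    have h3 := (h _ (he.pow0 r)).1
    have h4 := block_trace_zero hT S (he.pow0 (r + 1)) (by
      beta_reduce at h3 ⊢
      rw [pow_succ', sub_mul, mul_sub, map_sub, one_mul, h3, sub_self])
    beta_reduce at h4
    exact h4
  have t2 : ∀ r : ℕ, LinearMap.trace W'.K (W'.H X)
      (bproj (W'.isInternal X) Sᶜ * (y W') ^ (r + 1)) = 0 := by
    intro r
    have h3 := (h _ (hy.pow0 r)).2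
    have h4 := block_trace_zero hT Sᶜ (hy.pow0 (r + 1)) (by
      beta_reduce at h3 ⊢
      rw [pow_succ', h3])
    beta_reduce at h4
    exact h4
  have c1 : Commute (bproj (W'.isInternal X) S) (1 - y W') := bproj_comm (real_span he W') S
  have c2 : Commute (bproj (W'.isInternal X) Sᶜ) (y W') := bproj_comm (real_span hy W') Sᶜ
  exact approx_eq (bproj_add_compl (W'.isInternal X) S)
    (nil_of_traces (bproj_idem _ _) c1 t1 hN') (nil_of_traces (bproj_idem _ _) c2 t2 hN')

/-- **Descent**: a projector which is a combination of correspondences in one theory is given by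
one rational cycle in all theories with the same traces. -/
theorem one_of_span (h0 : ∀ j, Pool.Agent.Y106.One.SameTraces X j W W) {S : Set ℕ}
    (ha : bproj (W.isInternal X) S ∈ Submodule.span W.K (corrOps W X)) :
    ∃ z, (X.prod X).IsCyc X.dim z ∧ ∀ W' : WeilCohomology.{u, v} ops,
      (∀ j, Pool.Agent.Y106.One.SameTraces X j W W') →
        IsBlockProjector (W'.gr X) S (W'.corr (W'.cl _ z)) := by
  classical
  obtain ⟨ret, hret⟩ := exists_retract W.K
  obtain ⟨y, hy, hytr⟩ := exists_ret_all h0 ret ha 1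
  have key : ∀ j b, Realized ops X 0 b →
      LinearMap.trace W.K (W.H X) (proj (W.isInternal X) j * (y W * b W)) =
        if j ∈ S then LinearMap.trace W.K (W.H X) (proj (W.isInternal X) j * b W) else 0 := by
    intro j b hb
    rw [hytr j b hb, one_mul, ← mul_assoc, ← bproj_singleton, bproj_mul]
    by_cases hj : j ∈ S
    · rw [if_pos hj, Set.singleton_inter_of_mem hj, bproj_singleton]
      obtain ⟨t, ht⟩ := exists_rat (h0 j) hb
      rw [ht, ret_ratCast hret]
    · rw [if_neg hj, Set.singleton_inter_eq_empty.2 hj, bproj_empty, zero_mul, map_zero, map_zero,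
        Rat.cast_zero]
  obtain ⟨z, hz, hz2⟩ := exists_block (W := W) (S := S) hy (by
    intro b hb
    obtain ⟨s, hs, hs2⟩ := bproj_sum_ex.{u, v} (ops := ops) X S
    obtain ⟨s', hs', hs2'⟩ := bproj_sum_ex.{u, v} (ops := ops) X Sᶜ
    rw [hs2 W, hs2' W, Finset.sum_mul, Finset.sum_mul, Finset.sum_mul, map_sum, map_sum, map_sum]
    refine ⟨Finset.sum_congr rfl fun j hj => ?_, Finset.sum_eq_zero fun j hj => ?_⟩
    · rw [key j b hb, if_pos (hs j hj)]
    · rw [key j b hb, if_neg (hs' j hj)])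
  rcases hz with ⟨p, hp, z', hz', hzz⟩ | ⟨hd, _⟩
  · obtain rfl : p = X.dim := by omega
    refine ⟨z', hz', fun W' hW' => ?_⟩
    rw [isBlock_iff (W'.isInternal X), ← hzz W']
    exact hz2 W' hW'
  · omega

/-- Combinations of correspondences and combinations of classes of cycles. -/
lemma span_iff (W : WeilCohomology.{u, v} ops) (X : 𝒱.Obj) (S : Set ℕ) :
    (∃ γ ∈ spanCycles W (X.prod X) X.dim, IsBlockProjector (W.gr X) S (W.corr γ)) ↔
      bproj (W.isInternal X) S ∈ Submodule.span W.K (corrOps W X) := by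
  rw [span_corrOps_eq]
  constructor
  · rintro ⟨γ, hγ, h⟩
    exact ⟨γ, hγ, (isBlock_iff (W.isInternal X)).1 h⟩
  · rintro ⟨γ, hγ, h⟩
    exact ⟨γ, hγ, (isBlock_iff (W.isInternal X)).2 h⟩

end Pool.Agent.N164.KC
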